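import Pool.Agent.H37.CTN.Stmts
import Pool.Agent.H72.CTL.UMR

/-!
# Board ctn (MP_b57703), row UMS

A depth function on an elementary abelian group all of whose index-`p` coset sums agree is constant.
-/

set_option autoImplicit false

namespace Pool.CND

open Finset

theorem ums_thm : S_UMS := by
  classical
  intro p f q m F G _ _ _ _ b M c D hp hf hq hF hm hUM hc hc0 hφ
  have : Fact p.Prime := ⟨hp⟩
  let _ : Algebra (ZMod p) F := ZMod.algebra F p
  have hc1 : c 1 = 0 := by
    have h1 := hc 1 M.one_mem 1 M.one_mem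
    rw [mul_one] at h1
    exact left_eq_add.1 h1
  have hcinv : ∀ g ∈ M, c g⁻¹ = -c g := by
    intro g hg
    have h1 := hc g hg g⁻¹ (M.inv_mem hg)
    rw [mul_inv_cancel, hc1] at h1
    exact (neg_eq_of_add_eq_zero_right h1.symm).symm
  have hdual0 : ∀ (S : AddSubgroup (Fin m → F)) (v : Fin m → F), v ∉ S →
      ∃ φ : (Fin m → F) → ZMod p, (∀ x y, φ (x + y) = φ x + φ y) ∧ (∀ s ∈ S, φ s = 0) ∧
        φ v ≠ 0 := by
    intro S v hv
    obtain ⟨g, hg, hle⟩ := Submodule.exists_le_ker_of_notMem (K := ZMod p)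
      (p := AddSubgroup.toZModSubmodule p S) (v := v) hv
    exact ⟨g, map_add g, fun s hs => hle hs, hg⟩
  have hsurj : ∀ v : Fin m → F, ∃ g ∈ M, c g = v := by
    let S : AddSubgroup (Fin m → F) :=
      { carrier := {v | ∃ g ∈ M, c g = v}
        zero_mem' := ⟨1, M.one_mem, hc1⟩
        add_mem' := by
          rintro _ _ ⟨g, hg, rfl⟩ ⟨g', hg', rfl⟩
          exact ⟨g * g', M.mul_mem hg hg', hc g hg g' hg'⟩
        neg_mem' := by
          rintro _ ⟨g, hg, rfl⟩
          exact ⟨g⁻¹, M.inv_mem hg, hcinv g hg⟩ }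
    intro v
    by_contra hv
    obtain ⟨φ, ha, ha1, ha2⟩ := hdual0 S v hv
    have hne : φ ≠ 0 := by
      rintro rfl
      exact ha2 rfl
    obtain ⟨g, hg, hg1⟩ := (hφ φ ha hne).1
    exact hg1 (ha1 _ ⟨g, hg, rfl⟩)
  refine ⟨hsurj, ?_⟩
  have hN : ∀ g ∈ M, g ∈ (⊥ : Subgroup G) ↔ c g = 0 := by
    intro g hg
    rw [Subgroup.mem_bot]
    constructor
    · rintro rfl
      exact hc1
    · exact hc0 g hg
  have hmain := UMRH.coset_const b M ⊥ c D hUM bot_le hN hc hsurj (fun S v hv => by
    obtain ⟨φ, ha, ha1, ha2⟩ := hdual0 S v hv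
    have hne : φ ≠ 0 := by
      rintro rfl
      exact ha2 rfl
    have hφ0 : φ 0 = 0 := by
      have h1 := ha 0 0
      rw [add_zero] at h1
      exact left_eq_add.1 h1
    have hφn : ∀ x, φ (-x) = -φ x := by
      intro x
      have h1 := ha x (-x)
      rw [add_neg_cancel, hφ0] at h1
      exact (neg_eq_of_add_eq_zero_right h1.symm).symm
    let A : Subgroup G :=
      { carrier := {g | g ∈ M ∧ φ (c g) = 0}
        one_mem' := ⟨M.one_mem, by rw [hc1, hφ0]⟩
        mul_mem' := by
          rintro g g' ⟨hg, hg1⟩ ⟨hg', hg1'⟩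
          exact ⟨M.mul_mem hg hg', by rw [hc g hg g' hg', ha, hg1, hg1', add_zero]⟩
        inv_mem' := by
          rintro g ⟨hg, hg1⟩
          exact ⟨M.inv_mem hg, by rw [hcinv g hg, hφn, hg1, neg_zero]⟩ }
    have hA : ∀ g, g ∈ A ↔ g ∈ M ∧ φ (c g) = 0 := fun g => Iff.rfl
    have hcard : Nat.card M = p * Nat.card A := by
      let ψ : M →* Multiplicative (ZMod p) :=
        { toFun := fun g => Multiplicative.ofAdd (φ (c g))
          map_one' := by
            rw [OneMemClass.coe_one, hc1, hφ0]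
            rfl
          map_mul' := fun g h => by
            rw [Subgroup.coe_mul, hc g g.2 h h.2, ha]
            rfl }
      have hM : Nat.card (Multiplicative (ZMod p)) = p := by
        rw [Nat.card_congr Multiplicative.toAdd, Nat.card_zmod]
      have hs : Function.Surjective ψ := by
        rw [← MonoidHom.range_eq_top]
        have h3 := Subgroup.card_subgroup_dvd_card ψ.range
        rw [hM] at h3
        rcases (Nat.dvd_prime hp).1 h3 with h4 | h4
        · exfalso
          have h5 := Subgroup.eq_bot_of_card_eq _ h4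
          obtain ⟨g, hg, hg1⟩ := (hφ φ ha hne).1
          have h6 : ψ ⟨g, hg⟩ ∈ ψ.range := ⟨_, rfl⟩
          rw [h5, Subgroup.mem_bot] at h6
          exact hg1 h6
        · exact Subgroup.eq_top_of_card_eq _ (h4.trans hM.symm)
      have h1 := UMRH.card_ker M A ψ hs (fun g => by
        rw [hA]
        constructor
        · rintro ⟨h1, h2⟩
          exact ⟨h1, h2⟩
        · rintro ⟨h1, h2⟩
          exact ⟨h1, h2⟩)
      rwa [hM] at h1
    refine ⟨A, bot_le, fun g hg => ((hA g).1 hg).1, fun g hg hgS => (hA g).2 ⟨hg, ha1 _ hgS⟩,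
      fun g hg hcg => ?_⟩
    have hg1 : φ (c g) ≠ 0 := by
      rw [hcg]
      exact ha2
    refine ⟨fun h => hg1 ((hA g).1 h).2, ?_⟩
    have h2 := (hφ φ ha hne).2 g hg hg1
    have h3 : {x | g⁻¹ * x ∈ A} = {x | x ∈ M ∧ φ (c x) = φ (c g)} := by
      ext x
      simp only [Set.mem_ofPred_eq]
      rw [hA]
      constructor
      · rintro ⟨h4, h5⟩
        have hx : x ∈ M := by
          have h6 := M.mul_mem hg h4
          rwa [mul_inv_cancel_left] at h6
        refine ⟨hx, ?_⟩
        rw [hc _ (M.inv_mem hg) x hx, hcinv g hg, ha, hφn] at h5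
        linear_combination h5
      · rintro ⟨hx, h5⟩
        refine ⟨M.mul_mem (M.inv_mem hg) hx, ?_⟩
        rw [hc _ (M.inv_mem hg) x hx, hcinv g hg, ha, hφn, h5]
        exact neg_add_cancel _
    rw [h3]
    have hp0 : (p : ℤ) ≠ 0 := by exact_mod_cast hp.ne_zero
    have h4 : (p : ℤ) * sm b {x | x ∈ M ∧ φ (c x) = φ (c g)} = p * (Nat.card A * D) := by
      rw [h2, hcard]
      push_cast
      ring
    exact mul_left_cancel₀ hp0 h4)
  intro g hg hg1
  have h1 := hmain g hg (fun h => hg1 (Subgroup.mem_bot.1 h))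
  rw [UMRH.sm_coset] at h1
  have h2 : (univ.filter fun n : G => n ∈ (⊥ : Subgroup G)) = {1} := by
    ext n
    simp [Subgroup.mem_bot]
  rw [h2, Finset.sum_singleton, mul_one] at h1
  rw [h1, Nat.card_eq_fintype_card]
  simp

end Pool.CND
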